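import Pool.Agent.Lib.MRDP.Fns

set_option autoImplicit false

/-!
Diophantine sets are closed under bounded universal quantification.
-/

namespace Pool.Agent.Lib.MRDP

open Dioph Finset

section Poly

variable {δ : Type}

theorem poly_support (p : Poly δ) :
    ∃ s : Finset δ, ∀ x y : δ → ℕ, (∀ i ∈ s, x i = y i) → p x = p y := by
  classical
  induction p using Poly.induction with
  | H1 i => exact ⟨{i}, fun x y h => by simp [h i (mem_singleton_self i)]⟩
  | H2 n => exact ⟨∅, fun x y _ => by simp⟩
  | H3 f g hf hg =>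
    obtain ⟨s, hs⟩ := hf
    obtain ⟨t, ht⟩ := hg
    refine ⟨s ∪ t, fun x y h => ?_⟩
    rw [Poly.sub_apply, Poly.sub_apply, hs x y (fun i hi => h i (mem_union_left _ hi)),
      ht x y (fun i hi => h i (mem_union_right _ hi))]
  | H4 f g hf hg =>
    obtain ⟨s, hs⟩ := hf
    obtain ⟨t, ht⟩ := hg
    refine ⟨s ∪ t, fun x y h => ?_⟩
    rw [Poly.mul_apply, Poly.mul_apply, hs x y (fun i hi => h i (mem_union_left _ hi)),
      ht x y (fun i hi => h i (mem_union_right _ hi))]

theorem poly_bound (p : Poly δ) :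
    ∃ q : Poly δ, ∀ x y : δ → ℕ, (∀ i, x i ≤ y i) → |p x| ≤ q y := by
  induction p using Poly.induction with
  | H1 i =>
    refine ⟨Poly.proj i, fun x y h => ?_⟩
    simp only [Poly.proj_apply, Nat.abs_cast]
    exact_mod_cast h i
  | H2 n => exact ⟨Poly.const |n|, fun x y _ => by simp⟩
  | H3 f g hf hg =>
    obtain ⟨s, hs⟩ := hf
    obtain ⟨t, ht⟩ := hg
    refine ⟨s + t, fun x y h => ?_⟩
    rw [Poly.sub_apply, Poly.add_apply]
    exact (abs_sub _ _).trans (add_le_add (hs x y h) (ht x y h))
  | H4 f g hf hg =>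
    obtain ⟨s, hs⟩ := hf
    obtain ⟨t, ht⟩ := hg
    refine ⟨s * t, fun x y h => ?_⟩
    rw [Poly.mul_apply, Poly.mul_apply, abs_mul]
    exact mul_le_mul (hs x y h) (ht x y h) (abs_nonneg _) ((abs_nonneg _).trans (hs x y h))

theorem poly_modEq (p : Poly δ) (m : ℤ) (x y : δ → ℕ) (h : ∀ i, (x i : ℤ) ≡ y i [ZMOD m]) :
    p x ≡ p y [ZMOD m] := by
  induction p using Poly.induction with
  | H1 i => exact h i
  | H2 n => exact Int.ModEq.refl _
  | H3 f g hf hg =>
    rw [Poly.sub_apply, Poly.sub_apply]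
    exact hf.sub hg
  | H4 f g hf hg =>
    rw [Poly.mul_apply, Poly.mul_apply]
    exact hf.mul hg

theorem poly_modEq_support (p : Poly δ) (s : Finset δ)
    (hs : ∀ x y : δ → ℕ, (∀ i ∈ s, x i = y i) → p x = p y) (m : ℤ) (x y : δ → ℕ)
    (h : ∀ i ∈ s, (x i : ℤ) ≡ y i [ZMOD m]) : p x ≡ p y [ZMOD m] := by
  classical
  have h1 : p x ≡ p (fun i => if i ∈ s then y i else x i) [ZMOD m] := by
    apply poly_modEq
    intro i
    by_cases hi : i ∈ s
    · simpa [hi] using h i hi
    · simp [hi]
  rw [hs (fun i => if i ∈ s then y i else x i) y (fun i hi => by simp [hi])] at h1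
  exact h1

end Poly

theorem univ_dioph {γ : Type} : Dioph (Set.univ : Set (γ → ℕ)) :=
  of_no_dummies _ 0 (fun v => by simp)

theorem forall_finset_dioph {γ ι : Type} (s : Finset ι) (S : ι → Set (γ → ℕ))
    (h : ∀ i, Dioph (S i)) : Dioph {v | ∀ i ∈ s, v ∈ S i} := by
  classical
  induction s using Finset.induction with
  | empty => exact Dioph.ext univ_dioph (fun v => by simp)
  | insert a s _ ih =>
    exact Dioph.ext (Dioph.inter (h a) ih) (fun v => by simp)

/-- The moduli are pairwise coprime. -/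
theorem coprime_moduli {n B k l : ℕ} (hn : n ≤ B) (hkl : k < l) (hl : l < n) :
    Nat.Coprime (1 + (k + 1) * B.factorial) (1 + (l + 1) * B.factorial) := by
  rw [Nat.coprime_iff_gcd_eq_one]
  by_contra hne
  obtain ⟨q, hq, hqd⟩ := Nat.exists_prime_and_dvd hne
  have h1 : q ∣ 1 + (k + 1) * B.factorial := hqd.trans (Nat.gcd_dvd_left _ _)
  have h2 : q ∣ 1 + (l + 1) * B.factorial := hqd.trans (Nat.gcd_dvd_right _ _)
  have h3 : q ∣ (l - k) * B.factorial := by
    have := Nat.dvd_sub h2 h1
    have e : 1 + (l + 1) * B.factorial - (1 + (k + 1) * B.factorial) = (l - k) * B.factorial := by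
      obtain ⟨m, rfl⟩ := Nat.exists_eq_add_of_lt hkl
      have : k + m + 1 - k = m + 1 := by omega
      rw [this]
      have : 1 + (k + m + 1 + 1) * B.factorial = (1 + (k + 1) * B.factorial) + (m + 1) * B.factorial := by
        ring
      rw [this, Nat.add_sub_cancel_left]
    rwa [e] at this
  have hqT : q ∣ B.factorial := by
    rcases (Nat.Prime.dvd_mul hq).mp h3 with h | h
    · exact h.trans (Nat.dvd_factorial (by omega) (by omega))
    · exact h
  have : q ∣ 1 := (Nat.dvd_add_left (Dvd.dvd.mul_left hqT (k + 1))).mp h1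
  exact hq.one_lt.ne' (Nat.dvd_one.mp this)

/-- large prime factor -/
theorem exists_large_prime (B k : ℕ) :
    ∃ q : ℕ, q.Prime ∧ q ∣ 1 + (k + 1) * B.factorial ∧ B < q := by
  have hne : 1 + (k + 1) * B.factorial ≠ 1 := by
    have : 0 < (k + 1) * B.factorial := Nat.mul_pos (Nat.succ_pos k) (Nat.factorial_pos B)
    omega
  obtain ⟨q, hq, hqd⟩ := Nat.exists_prime_and_dvd hne
  refine ⟨q, hq, hqd, ?_⟩
  by_contra hle
  push Not at hle
  have hqT : q ∣ B.factorial := Nat.dvd_factorial hq.pos hle
  have : q ∣ 1 := (Nat.dvd_add_left (Dvd.dvd.mul_left hqT (k + 1))).mp hqd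
  exact hq.one_lt.ne' (Nat.dvd_one.mp this)

theorem dvd_descFactorial_of_modEq {m a t u : ℕ} (htu : t ≤ u) (h : a ≡ t [MOD m]) :
    m ∣ a.descFactorial (u + 1) := by
  rw [Nat.descFactorial_eq_prod_range]
  have h1 : m ∣ a - t := by
    rcases le_total t a with hta | hat
    · exact (Nat.modEq_iff_dvd' hta).mp h.symm
    · rw [Nat.sub_eq_zero_of_le hat]; exact dvd_zero _
  exact h1.trans (dvd_prod_of_mem _ (mem_range.mpr (by omega)))

theorem mod_le_of_dvd_descFactorial {q a u : ℕ} (hq : q.Prime) (huq : u < q)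
    (h : q ∣ a.descFactorial (u + 1)) : a % q ≤ u := by
  rw [Nat.descFactorial_eq_prod_range, Prime.dvd_finsetProd_iff hq.prime] at h
  obtain ⟨j, hj, hd⟩ := h
  rw [mem_range] at hj
  rcases le_total j a with hja | haj
  · have h1 : j ≡ a [MOD q] := (Nat.modEq_iff_dvd' hja).mpr hd
    have h2 : a % q = j := by
      rw [← h1]
      exact Nat.mod_eq_of_lt (by omega)
    omega
  · exact (Nat.mod_le a q).trans (by omega)

section Main

variable {α β : Type}

/-- Number-theoretic core of the bounded quantifier theorem. -/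
theorem core (p : Poly (Option α ⊕ β)) (q : Poly (Option α ⊕ β))
    (hq : ∀ x y, (∀ i, x i ≤ y i) → |p x| ≤ q y)
    (s : Finset (Option α ⊕ β)) (hs : ∀ x y, (∀ i ∈ s, x i = y i) → p x = p y)
    (n : ℕ) (v : α → ℕ) :
    (∀ k < n, ∃ t : β → ℕ, p (Sum.elim (Option.elim' k v) t) = 0) ↔
    ∃ (u c : ℕ) (a : β → ℕ),
      (∏ k ∈ range n, (1 + (k + 1) *
        ((q (Sum.elim (Option.elim' n v) (fun _ => u))).natAbs + n + u + 1).factorial)) ∣
        1 + (c + 1) * ((q (Sum.elim (Option.elim' n v) (fun _ => u))).natAbs + n + u + 1).factorial ∧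
      (∏ k ∈ range n, (1 + (k + 1) *
        ((q (Sum.elim (Option.elim' n v) (fun _ => u))).natAbs + n + u + 1).factorial)) ∣
        (p (Sum.elim (Option.elim' c v) a)).natAbs ∧
      ∀ i : β, Sum.inr i ∈ s → (∏ k ∈ range n, (1 + (k + 1) *
        ((q (Sum.elim (Option.elim' n v) (fun _ => u))).natAbs + n + u + 1).factorial)) ∣
        (a i).descFactorial (u + 1) := by
  classical
  constructor
  · intro H
    choose! t ht using H
    -- bound
    set u : ℕ := ∑ k ∈ range n, ∑ i ∈ s, Sum.elim (fun _ => 0) (t k) i with hu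
    have htu : ∀ k < n, ∀ i : β, Sum.inr i ∈ s → t k i ≤ u := by
      intro k hk i hi
      calc t k i = Sum.elim (fun _ => 0) (t k) (Sum.inr i : Option α ⊕ β) := rfl
        _ ≤ ∑ i ∈ s, Sum.elim (fun _ => 0) (t k) i :=
          single_le_sum (f := fun i => Sum.elim (fun _ => 0) (t k) i) (fun _ _ => Nat.zero_le _) hi
        _ ≤ u := single_le_sum (f := fun k => ∑ i ∈ s, Sum.elim (fun _ => 0) (t k) i)
          (fun _ _ => Nat.zero_le _) (mem_range.mpr hk)
    set B := (q (Sum.elim (Option.elim' n v) (fun _ => u))).natAbs + n + u + 1 with hB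
    have hnB : n ≤ B := by omega
    set m : ℕ → ℕ := fun k => 1 + (k + 1) * B.factorial with hm
    have hcop : Set.Pairwise (range n : Set ℕ) (Function.onFun Nat.Coprime m) := by
      intro k hk l hl hkl
      simp only [coe_range, Set.mem_Iio] at hk hl
      rcases lt_or_gt_of_ne hkl with h | h
      · exact coprime_moduli hnB h hl
      · exact (coprime_moduli hnB h hk).symm
    have hm0 : ∀ k ∈ range n, m k ≠ 0 := fun k _ => by simp only [hm]; omega
    obtain ⟨c, hc⟩ := Nat.chineseRemainderOfFinset (fun k => k) m (range n) hm0 hcop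
    have ha : ∀ i : β, ∃ a : ℕ, ∀ k ∈ range n, a ≡ t k i [MOD m k] := fun i => by
      obtain ⟨a, ha⟩ := Nat.chineseRemainderOfFinset (fun k => t k i) m (range n) hm0 hcop
      exact ⟨a, ha⟩
    choose a ha using ha
    have hprod : ∀ N : ℕ, (∀ k ∈ range n, m k ∣ N) → (∏ k ∈ range n, m k) ∣ N := by
      intro N hN
      apply Finset.prod_dvd_of_isRelPrime _ hN
      intro k hk l hl hkl
      exact Nat.coprime_iff_isRelPrime.mp (hcop hk hl hkl)
    refine ⟨u, c, a, hprod _ ?_, hprod _ ?_, ?_⟩
    · intro k hk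
      have h1 : 1 + (c + 1) * B.factorial ≡ 1 + (k + 1) * B.factorial [MOD m k] :=
        Nat.ModEq.add_left _ (Nat.ModEq.mul_right _ (Nat.ModEq.add_right _ (hc k hk)))
      have h2 : 1 + (k + 1) * B.factorial ≡ 0 [MOD m k] := by
        rw [Nat.modEq_zero_iff_dvd]
      exact (Nat.modEq_zero_iff_dvd).mp (h1.trans h2)
    · intro k hk
      have h1 : p (Sum.elim (Option.elim' c v) a) ≡ p (Sum.elim (Option.elim' k v) (t k))
          [ZMOD (m k : ℤ)] := by
        apply poly_modEq
        rintro ((_ | x) | i)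
        · exact (Int.natCast_modEq_iff).mpr (hc k hk)
        · exact Int.ModEq.refl _
        · exact (Int.natCast_modEq_iff).mpr (ha i k hk)
      rw [ht k (mem_range.mp hk)] at h1
      have h2 := Int.modEq_zero_iff_dvd.mp h1
      exact Int.natCast_dvd.mp h2
    · intro i hi
      apply hprod
      intro k hk
      exact dvd_descFactorial_of_modEq (htu k (mem_range.mp hk) i hi) (ha i k hk)
  · rintro ⟨u, c, a, h1, h2, h3⟩ k hk
    set B := (q (Sum.elim (Option.elim' n v) (fun _ => u))).natAbs + n + u + 1 with hB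
    obtain ⟨r, hr, hrd, hBr⟩ := exists_large_prime B k
    have hrM : r ∣ ∏ k ∈ range n, (1 + (k + 1) * B.factorial) :=
      hrd.trans (dvd_prod_of_mem (fun k => 1 + (k + 1) * B.factorial) (mem_range.mpr hk))
    set t : β → ℕ := fun i => if Sum.inr i ∈ s then a i % r else 0 with htdef
    have htu : ∀ i, t i ≤ u := by
      intro i
      simp only [htdef]
      split_ifs with hi
      · exact mod_le_of_dvd_descFactorial hr (by omega) (hrM.trans (h3 i hi))
      · exact Nat.zero_le _
    refine ⟨t, ?_⟩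
    -- c ≡ k mod r
    have hck : (c : ℤ) ≡ k [ZMOD (r : ℤ)] := by
      have e1 : (r : ℤ) ∣ 1 + ((c : ℤ) + 1) * (B.factorial : ℤ) := by
        exact_mod_cast hrM.trans h1
      have e2 : (r : ℤ) ∣ 1 + ((k : ℤ) + 1) * (B.factorial : ℤ) := by
        exact_mod_cast hrd
      have e3 : (r : ℤ) ∣ ((k : ℤ) - c) * (B.factorial : ℤ) := by
        have := dvd_sub e2 e1
        have e : 1 + ((k : ℤ) + 1) * (B.factorial : ℤ) - (1 + ((c : ℤ) + 1) * (B.factorial : ℤ))
          = ((k : ℤ) - c) * (B.factorial : ℤ) := by ring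
        rwa [e] at this
      have hrp : Prime (r : ℤ) := Nat.prime_iff_prime_int.mp hr
      rcases hrp.dvd_or_dvd e3 with h | h
      · exact (Int.modEq_iff_dvd).mpr h
      · exfalso
        have h4 : r ∣ B.factorial := by exact_mod_cast h
        have : r ∣ 1 := (Nat.dvd_add_left (Dvd.dvd.mul_left h4 (k + 1))).mp hrd
        exact hr.one_lt.ne' (Nat.dvd_one.mp this)
    have hcong : p (Sum.elim (Option.elim' c v) a) ≡ p (Sum.elim (Option.elim' k v) t)
        [ZMOD (r : ℤ)] := by
      apply poly_modEq_support p s hs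
      rintro ((_ | x) | i) hi
      · exact hck
      · exact Int.ModEq.refl _
      · simp only [Sum.elim_inr, htdef, if_pos hi]
        push_cast
        exact (Int.mod_modEq _ _).symm
    have hz : p (Sum.elim (Option.elim' c v) a) ≡ 0 [ZMOD (r : ℤ)] := by
      rw [Int.modEq_zero_iff_dvd]
      exact Int.natCast_dvd.mpr (hrM.trans h2)
    have hd : (r : ℤ) ∣ p (Sum.elim (Option.elim' k v) t) :=
      Int.modEq_zero_iff_dvd.mp (hcong.symm.trans hz)
    have hbd : |p (Sum.elim (Option.elim' k v) t)| ≤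
        q (Sum.elim (Option.elim' n v) (fun _ => u)) := by
      apply hq
      rintro ((_ | x) | i)
      · exact hk.le
      · exact le_rfl
      · exact htu i
    apply Int.eq_zero_of_abs_lt_dvd hd
    omega

/-- Bounded universal quantification, the bound being a variable. -/
theorem bforall_var {P : ℕ → (α → ℕ) → Prop}
    (hP : Dioph {v : Option α → ℕ | P (v none) (v ∘ some)}) :
    Dioph {w : Option α → ℕ | ∀ k < w none, P k (w ∘ some)} := by
  classical
  obtain ⟨β, p, hp⟩ := hP
  obtain ⟨s, hs⟩ := poly_support p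
  obtain ⟨q, hq⟩ := poly_bound p
  -- index maps
  let e1 : Option α ⊕ β → Option α ⊕ Option (Option β) :=
    Sum.elim (Option.elim' (Sum.inr (some none)) (fun x => Sum.inl (some x)))
      (fun i => Sum.inr (some (some i)))
  let e2 : Option α ⊕ β → Option α ⊕ Option (Option β) :=
    Sum.elim (Option.elim' (Sum.inl none) (fun x => Sum.inl (some x)))
      (fun _ => Sum.inr none)
  let nf : (Option α ⊕ Option (Option β) → ℕ) → ℕ := fun z => z (Sum.inl none)
  let uf : (Option α ⊕ Option (Option β) → ℕ) → ℕ := fun z => z (Sum.inr none)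
  let cf : (Option α ⊕ Option (Option β) → ℕ) → ℕ := fun z => z (Sum.inr (some none))
  have hn : DiophFn nf := proj_dioph _
  have hu : DiophFn uf := proj_dioph _
  have hc : DiophFn cf := proj_dioph _
  let Bf : (Option α ⊕ Option (Option β) → ℕ) → ℕ := fun z =>
    ((q.map e2) z).natAbs + nf z + uf z + 1
  have hB : DiophFn Bf :=
    add_dioph (add_dioph (add_dioph (abs_poly_dioph _) hn) hu) (const_dioph 1)
  let Tf : (Option α ⊕ Option (Option β) → ℕ) → ℕ := fun z => (Bf z).factorial
  have hT : DiophFn Tf := factorial_dioph hB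
  let Mf : (Option α ⊕ Option (Option β) → ℕ) → ℕ := fun z =>
    ∏ k ∈ range (nf z), (1 + (k + 1) * Tf z)
  have hM : DiophFn Mf := by
    have h1 := prod_dioph hn (sub_dioph hT (const_dioph 1))
    have e : (fun v => ∏ k ∈ range (nf v), (1 + (k + 1) * (Tf v - (Function.const _ 1) v + 1))) = Mf := by
      funext v
      have : Tf v - (Function.const (Option α ⊕ Option (Option β) → ℕ) 1) v + 1 = Tf v := by
        have := Nat.factorial_pos (Bf v)
        simp only [Function.const_apply]
        exact Nat.sub_add_cancel this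
      simp only [this]
      rfl
    rw [← e]
    exact h1
  have hS : Dioph {z : Option α ⊕ Option (Option β) → ℕ |
      Mf z ∣ 1 + (cf z + 1) * Tf z ∧ Mf z ∣ ((p.map e1) z).natAbs ∧
      ∀ i ∈ s, z ∈ (Sum.elim (fun _ => Set.univ) (fun i : β =>
        {z : Option α ⊕ Option (Option β) → ℕ |
          Mf z ∣ (z (Sum.inr (some (some i)))).descFactorial (uf z + 1)}) i :
            Set (Option α ⊕ Option (Option β) → ℕ))} := by
    refine Dioph.inter (dvd_dioph hM (add_dioph (const_dioph 1)
      (mul_dioph (add_dioph hc (const_dioph 1)) hT))) (Dioph.inter (dvd_dioph hM (abs_poly_dioph _)) ?_)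
    apply forall_finset_dioph
    rintro (x | i)
    · exact univ_dioph
    · exact dvd_dioph hM (descFactorial_dioph (proj_dioph _) (add_dioph hu (const_dioph 1)))
  refine Dioph.ext (ex_dioph hS) (fun w => ?_)
  have hcore := core p q hq s hs (w none) (w ∘ some)
  have hw : ∀ k, P k (w ∘ some) ↔ ∃ t : β → ℕ, p (Sum.elim (Option.elim' k (w ∘ some)) t) = 0 := by
    intro k
    exact hp (Option.elim' k (w ∘ some))
  simp only [Set.mem_ofPred_eq]
  simp only [hw]
  rw [hcore]
  have E1 : ∀ x : Option (Option β) → ℕ, (Sum.elim w x) ∘ e1 =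
      Sum.elim (Option.elim' (x (some none)) (w ∘ some)) (fun i => x (some (some i))) := by
    intro x
    funext i
    rcases i with (_ | y) | i <;> rfl
  have E2 : ∀ x : Option (Option β) → ℕ, (Sum.elim w x) ∘ e2 =
      Sum.elim (Option.elim' (w none) (w ∘ some)) (fun _ => x none) := by
    intro x
    funext i
    rcases i with (_ | y) | i <;> rfl
  have EB : ∀ x : Option (Option β) → ℕ, Bf (Sum.elim w x) =
      (q (Sum.elim (Option.elim' (w none) (w ∘ some)) (fun _ => x none))).natAbs
        + w none + x none + 1 := by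
    intro x
    simp only [Bf, Poly.map_apply, E2]
    rfl
  have ET : ∀ x : Option (Option β) → ℕ, Tf (Sum.elim w x) =
      ((q (Sum.elim (Option.elim' (w none) (w ∘ some)) (fun _ => x none))).natAbs
        + w none + x none + 1).factorial := by
    intro x
    simp only [Tf, EB]
  have EM : ∀ x : Option (Option β) → ℕ, Mf (Sum.elim w x) =
      ∏ k ∈ range (w none), (1 + (k + 1) *
        ((q (Sum.elim (Option.elim' (w none) (w ∘ some)) (fun _ => x none))).natAbs
        + w none + x none + 1).factorial) := by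
    intro x
    simp only [Mf, ET]
    rfl
  constructor
  · rintro ⟨x, h1, h2, h3⟩
    rw [EM, ET] at h1
    rw [EM, Poly.map_apply, E1] at h2
    refine ⟨x none, x (some none), fun i => x (some (some i)), h1, h2, fun i hi => ?_⟩
    have h4 := h3 (Sum.inr i) hi
    simp only [Sum.elim_inr, Set.mem_ofPred_eq, EM] at h4
    exact h4
  · rintro ⟨u, c, a, h1, h2, h3⟩
    refine ⟨Option.elim' u (Option.elim' c a), ?_, ?_, ?_⟩
    · rw [EM, ET]
      exact h1
    · rw [EM, Poly.map_apply, E1]
      exact h2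
    · rintro (x | i) hi
      · exact Set.mem_univ _
      · simp only [Sum.elim_inr, Set.mem_ofPred_eq, EM]
        exact h3 i hi

/-- Bounded universal quantification. -/
theorem bforall {P : ℕ → (α → ℕ) → Prop} {f : (α → ℕ) → ℕ} (hf : DiophFn f)
    (hP : Dioph {v : Option α → ℕ | P (v none) (v ∘ some)}) :
    Dioph {w : α → ℕ | ∀ k < f w, P k w} :=
  diophFn_comp1 (bforall_var hP) hf

end Main

end Pool.Agent.Lib.MRDP
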