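import Mathlib

set_option autoImplicit false

/-!
Diophantine functions: binomial coefficients, factorials, products `∏_{k<n} (1+(k+1)T)`.
-/

namespace Pool.Agent.Lib.MRDP

open Dioph Finset

/-- Arithmetic core of the digit extraction formula for binomial coefficients. -/
theorem choose_eq (n k : ℕ) :
    n.choose k = (2 ^ n + 1 + 1) ^ n / (2 ^ n + 1) ^ k % (2 ^ n + 1) := by
  set u := 2 ^ n + 1 with hu
  have hupos : 0 < u := by positivity
  have hlt : ∀ i, n.choose i < u := fun i =>
    lt_of_le_of_lt (Nat.choose_le_two_pow n i) (Nat.lt_succ_self _)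
  -- partial sums are small
  have hsmall : ∀ m, ∑ i ∈ range m, n.choose i * u ^ i < u ^ m := by
    intro m
    induction m with
    | zero => simp
    | succ m ih =>
      rw [sum_range_succ, pow_succ]
      have h1 : (n.choose m + 1) * u ^ m ≤ u * u ^ m :=
        Nat.mul_le_mul_right _ (hlt m)
      rw [add_mul, one_mul] at h1
      rw [mul_comm (u ^ m) u]
      omega
  have hexp : ∀ N, n < N → (u + 1) ^ n = ∑ i ∈ range N, n.choose i * u ^ i := by
    intro N hN
    rw [add_pow]
    have : ∑ m ∈ range (n + 1), u ^ m * 1 ^ (n - m) * (n.choose m : ℕ)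
        = ∑ i ∈ range (n + 1), n.choose i * u ^ i := by
      apply sum_congr rfl
      intro i _
      simp [mul_comm]
    simp only [Nat.cast_id] at this ⊢
    rw [this]
    apply sum_subset
    · intro i hi
      rw [mem_range] at hi ⊢
      omega
    · intro i _ hi
      rw [mem_range] at hi
      rw [Nat.choose_eq_zero_of_lt (by omega), zero_mul]
  rw [hexp (k + 1 + (n + 1)) (by omega)]
  have hdvd : u ^ (k + 1) ∣ ∑ i ∈ Ico (k + 1) (k + 1 + (n + 1)), n.choose i * u ^ i := by
    apply dvd_sum
    intro i hi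
    rw [mem_Ico] at hi
    exact Dvd.dvd.mul_left (pow_dvd_pow u hi.1) _
  obtain ⟨R, hR⟩ := hdvd
  have hsplit : ∑ i ∈ range (k + 1 + (n + 1)), n.choose i * u ^ i
      = ∑ i ∈ range k, n.choose i * u ^ i + u ^ k * (n.choose k + u * R) := by
    have h1 := sum_Ico_consecutive (fun i => n.choose i * u ^ i) (Nat.zero_le (k + 1))
      (Nat.le_add_right (k + 1) (n + 1))
    rw [← range_eq_Ico, ← range_eq_Ico] at h1
    rw [← h1, hR, sum_range_succ, pow_succ]
    ring
  rw [hsplit, Nat.add_mul_div_left _ _ (pow_pos hupos k), Nat.div_eq_of_lt (hsmall k), zero_add,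
    Nat.add_mul_mod_self_left, Nat.mod_eq_of_lt (hlt k)]

/-- Factorials as quotients. -/
theorem factorial_eq (n : ℕ) :
    n.factorial = (n ^ 2 * (n ^ n + 1) + n + 1) ^ n /
      (n ^ 2 * (n ^ n + 1) + n + 1).choose n := by
  set r := n ^ 2 * (n ^ n + 1) + n + 1 with hr
  have hrn : n < r := by omega
  have hcpos : 0 < r.choose n := Nat.choose_pos hrn.le
  symm
  rw [Nat.div_eq_iff hcpos]
  have hdf : r.descFactorial n = n.factorial * r.choose n :=
    Nat.descFactorial_eq_factorial_mul_choose r n
  have h1 : r.descFactorial n ≤ r ^ n := Nat.descFactorial_le_pow r n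
  have h2 : (r - n) ^ n ≤ r.descFactorial n := by
    calc (r - n) ^ n ≤ (r + 1 - n) ^ n := Nat.pow_le_pow_left (by omega) n
      _ ≤ r.descFactorial n := Nat.pow_sub_le_descFactorial r n
  have hfac : n.factorial ≤ n ^ n := Nat.factorial_le_pow n
  -- Bernoulli
  have h3 : r ^ (n + 1) ≤ (r - n) ^ n * r + n ^ 2 * r ^ n := by
    have hb := one_add_mul_le_pow (a := (-(n : ℚ) / r)) (by
      have : (0 : ℚ) < r := by exact_mod_cast (by omega : 0 < r)
      rw [le_div_iff₀ this]
      have : (n : ℚ) ≤ r := by exact_mod_cast hrn.le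
      linarith) n
    have hrpos : (0 : ℚ) < r := by exact_mod_cast (by omega : 0 < r)
    have e1 : (1 + -(n : ℚ) / r) = ((r : ℚ) - n) / r := by field_simp; ring
    rw [e1, div_pow] at hb
    have hb2 : (1 + (n : ℚ) * (-(n : ℚ) / r)) * r ^ n ≤ ((r : ℚ) - n) ^ n := by
      rw [le_div_iff₀ (by positivity)] at hb
      exact hb
    have hb3 : (r : ℚ) ^ (n + 1) ≤ ((r : ℚ) - n) ^ n * r + (n : ℚ) ^ 2 * (r : ℚ) ^ n := by
      have : (1 + (n : ℚ) * (-(n : ℚ) / r)) * r ^ n * r = (r : ℚ) ^ (n + 1) - (n : ℚ) ^ 2 * (r : ℚ) ^ n := by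
        field_simp
        ring
      nlinarith [mul_le_mul_of_nonneg_right hb2 hrpos.le]
    have hb4 : ((r ^ (n + 1) : ℕ) : ℚ) ≤ (((r - n) ^ n * r + n ^ 2 * r ^ n : ℕ) : ℚ) := by
      push_cast [Nat.cast_sub hrn.le]
      exact hb3
    exact_mod_cast hb4
  constructor
  · rw [← hdf]; exact h1
  · -- r ^ n < (n! + 1) * choose
    have hcle : r.choose n ≤ r ^ n := by
      calc r.choose n ≤ n.factorial * r.choose n := Nat.le_mul_of_pos_left _ (Nat.factorial_pos n)
        _ ≤ r ^ n := by rw [← hdf]; exact h1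
    have key : n.factorial * r ^ n < (n.factorial + 1) * (n.factorial * r.choose n) := by
      rw [← hdf]
      have hdl : (r - n) ^ n ≤ r.descFactorial n := h2
      -- (n!+1)(r-n)^n r ≥ (n!+1)(r^(n+1) - n^2 r^n) > n! r^(n+1)
      have hrpow : 0 < r ^ n := Nat.pow_pos (by omega)
      have h5 : n.factorial * r ^ (n + 1) < (n.factorial + 1) * ((r - n) ^ n * r) := by
        have h6 : (n.factorial + 1) * r ^ (n + 1) ≤ (n.factorial + 1) * ((r - n) ^ n * r + n ^ 2 * r ^ n) :=
          Nat.mul_le_mul_left _ h3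
        have h7 : (n.factorial + 1) * (n ^ 2 * r ^ n) < r ^ (n + 1) := by
          have : (n.factorial + 1) * n ^ 2 < r := by
            have := Nat.mul_le_mul_right (n ^ 2) (Nat.succ_le_succ hfac)
            rw [Nat.succ_eq_add_one, Nat.succ_eq_add_one] at this
            calc (n.factorial + 1) * n ^ 2 ≤ (n ^ n + 1) * n ^ 2 := this
              _ = n ^ 2 * (n ^ n + 1) := by ring
              _ < r := by omega
          calc (n.factorial + 1) * (n ^ 2 * r ^ n) = ((n.factorial + 1) * n ^ 2) * r ^ n := by ring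
            _ < r * r ^ n := Nat.mul_lt_mul_of_pos_right this hrpow
            _ = r ^ (n + 1) := by ring
        nlinarith
      have h8 : n.factorial * r ^ n * r < (n.factorial + 1) * r.descFactorial n * r := by
        calc n.factorial * r ^ n * r = n.factorial * r ^ (n + 1) := by ring
          _ < (n.factorial + 1) * ((r - n) ^ n * r) := h5
          _ ≤ (n.factorial + 1) * (r.descFactorial n * r) :=
            Nat.mul_le_mul_left _ (Nat.mul_le_mul_right _ hdl)
          _ = (n.factorial + 1) * r.descFactorial n * r := by ring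
      exact lt_of_mul_lt_mul_right h8 (Nat.zero_le r)
    have key2 : n.factorial * r ^ n < n.factorial * ((n.factorial + 1) * r.choose n) := by
      calc n.factorial * r ^ n < (n.factorial + 1) * (n.factorial * r.choose n) := key
        _ = _ := by ring
    have key3 := lt_of_mul_lt_mul_left key2 (Nat.zero_le _)
    rw [add_mul, one_mul] at key3
    omega

/-- Product of the β-moduli. -/
theorem prod_eq (n T : ℕ) (hT : 0 < T) :
    ∏ k ∈ range n, (1 + (k + 1) * T) =
      (T ^ n * (n.factorial * (((1 + n * T) ^ n + 2) + n).choose n)) %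
        (T * ((1 + n * T) ^ n + 2) - 1) := by
  set w := (1 + n * T) ^ n + 2 with hw
  have hle : ∏ k ∈ range n, (1 + (k + 1) * T) ≤ (1 + n * T) ^ n := by
    calc ∏ k ∈ range n, (1 + (k + 1) * T) ≤ ∏ k ∈ range n, (1 + n * T) := by
          apply prod_le_prod'
          intro k hk
          rw [mem_range] at hk
          have : (k + 1) * T ≤ n * T := Nat.mul_le_mul_right T hk
          omega
      _ = (1 + n * T) ^ n := by rw [prod_const, card_range]
  have hTw : w ≤ T * w := Nat.le_mul_of_pos_left w hT
  have hlt : ∏ k ∈ range n, (1 + (k + 1) * T) < T * w - 1 := by omega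
  have hTw1 : T * w ≡ 1 [MOD (T * w - 1)] := by
    have : (T * w - 1) + 1 = T * w := by omega
    conv_lhs => rw [← this]
    simp [Nat.ModEq]
  have hasc : n.factorial * (w + n).choose n = ∏ k ∈ range n, (w + (k + 1)) := by
    rw [← Nat.ascFactorial_eq_factorial_mul_choose, Nat.ascFactorial_eq_prod_range]
    apply prod_congr rfl
    intro k _
    ring
  rw [hasc, ← Nat.mod_eq_of_lt hlt]
  change _ ≡ _ [MOD _]
  have e1 : T ^ n * ∏ k ∈ range n, (w + (k + 1)) = ∏ k ∈ range n, (T * w + (k + 1) * T) := by
    rw [← card_range n, ← prod_const, card_range, ← prod_mul_distrib]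
    apply prod_congr rfl
    intro k _
    ring
  rw [e1]
  have gen : ∀ m, ∏ k ∈ range m, (1 + (k + 1) * T) ≡ ∏ k ∈ range m, (T * w + (k + 1) * T)
      [MOD (T * w - 1)] := by
    intro m
    induction m with
    | zero => exact Nat.ModEq.refl _
    | succ m ih =>
      rw [prod_range_succ, prod_range_succ]
      exact Nat.ModEq.mul ih (Nat.ModEq.add_right _ hTw1.symm)
  exact gen n

section

variable {α : Type} {f g : (α → ℕ) → ℕ}

theorem choose_dioph (df : DiophFn f) (dg : DiophFn g) :
    DiophFn fun v => (f v).choose (g v) := by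
  have e : (fun v => (f v).choose (g v)) =
      fun v => (2 ^ f v + 1 + 1) ^ f v / (2 ^ f v + 1) ^ g v % (2 ^ f v + 1) :=
    funext fun v => choose_eq (f v) (g v)
  rw [e]
  have h2 : DiophFn fun v : α → ℕ => 2 ^ f v + 1 :=
    add_dioph (pow_dioph (const_dioph 2) df) (const_dioph 1)
  exact mod_dioph (div_dioph (pow_dioph (add_dioph h2 (const_dioph 1)) df) (pow_dioph h2 dg)) h2

theorem factorial_dioph (df : DiophFn f) : DiophFn fun v => (f v).factorial := by
  have e : (fun v => (f v).factorial) = fun v => (f v ^ 2 * (f v ^ f v + 1) + f v + 1) ^ f v /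
      (f v ^ 2 * (f v ^ f v + 1) + f v + 1).choose (f v) :=
    funext fun v => factorial_eq (f v)
  rw [e]
  have h : DiophFn fun v : α → ℕ => f v ^ 2 * (f v ^ f v + 1) + f v + 1 :=
    add_dioph (add_dioph (mul_dioph (pow_dioph df (const_dioph 2))
      (add_dioph (pow_dioph df df) (const_dioph 1))) df) (const_dioph 1)
  exact div_dioph (pow_dioph h df) (choose_dioph h df)

/-- The product of the moduli, with `T + 1` in place of `T`. -/
theorem prod_dioph (df : DiophFn f) (dg : DiophFn g) :
    DiophFn fun v => ∏ k ∈ range (f v), (1 + (k + 1) * (g v + 1)) := by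
  have e : (fun v => ∏ k ∈ range (f v), (1 + (k + 1) * (g v + 1))) = fun v =>
      ((g v + 1) ^ f v * ((f v).factorial *
        (((1 + f v * (g v + 1)) ^ f v + 2) + f v).choose (f v))) %
        ((g v + 1) * ((1 + f v * (g v + 1)) ^ f v + 2) - 1) :=
    funext fun v => prod_eq (f v) (g v + 1) (Nat.succ_pos _)
  rw [e]
  have hT : DiophFn fun v : α → ℕ => g v + 1 := add_dioph dg (const_dioph 1)
  have hw : DiophFn fun v : α → ℕ => (1 + f v * (g v + 1)) ^ f v + 2 :=
    add_dioph (pow_dioph (add_dioph (const_dioph 1) (mul_dioph df hT)) df) (const_dioph 2)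
  exact mod_dioph (mul_dioph (pow_dioph hT df)
    (mul_dioph (factorial_dioph df) (choose_dioph (add_dioph hw df) df)))
    (sub_dioph (mul_dioph hT hw) (const_dioph 1))

theorem descFactorial_dioph (df : DiophFn f) (dg : DiophFn g) :
    DiophFn fun v => (f v).descFactorial (g v) := by
  have e : (fun v => (f v).descFactorial (g v)) = fun v =>
      (g v).factorial * (f v).choose (g v) :=
    funext fun v => Nat.descFactorial_eq_factorial_mul_choose _ _
  rw [e]
  exact mul_dioph (factorial_dioph dg) (choose_dioph df dg)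

end

end Pool.Agent.Lib.MRDP
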