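import Pool.Agent.Lib.MRDP.BForall

set_option autoImplicit false

/-!
The theorem of Matiyasevich, Robinson, Davis and Putnam: graphs of partial recursive functions
are Diophantine.
-/

namespace Pool.Agent.Lib.MRDP

open Dioph Finset Fin2 Vector3

section Basic

variable {α : Type}

theorem ex_dioph' {P : ℕ → (α → ℕ) → Prop}
    (h : Dioph {v : Option α → ℕ | P (v none) (v ∘ some)}) : Dioph {v : α → ℕ | ∃ x, P x v} :=
  ex1_dioph h

theorem ext_dioph' {P Q : (α → ℕ) → Prop} (h : Dioph {v : α → ℕ | P v}) (H : ∀ v, P v ↔ Q v) :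
    Dioph {v : α → ℕ | Q v} :=
  Dioph.ext h H

theorem pair_dioph {f g : (α → ℕ) → ℕ} (df : DiophFn f) (dg : DiophFn g) :
    DiophFn fun v => Nat.pair (f v) (g v) := by
  have h : Dioph {v : Option α → ℕ | ((f (v ∘ some) < g (v ∘ some)) ∧
      v none = g (v ∘ some) * g (v ∘ some) + f (v ∘ some)) ∨
      (g (v ∘ some) ≤ f (v ∘ some) ∧
        v none = f (v ∘ some) * f (v ∘ some) + f (v ∘ some) + g (v ∘ some))} := by
    have hf : DiophFn fun v : Option α → ℕ => f (v ∘ some) := reindex_diophFn some df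
    have hg : DiophFn fun v : Option α → ℕ => g (v ∘ some) := reindex_diophFn some dg
    have hn : DiophFn fun v : Option α → ℕ => v none := proj_dioph none
    exact Dioph.union (Dioph.inter (lt_dioph hf hg) (eq_dioph hn (add_dioph (mul_dioph hg hg) hf)))
      (Dioph.inter (le_dioph hg hf) (eq_dioph hn (add_dioph (add_dioph (mul_dioph hf hf) hf) hg)))
  refine Dioph.ext h (fun v => ?_)
  simp only [Set.mem_ofPred_eq, Nat.pair]
  split_ifs with hlt
  · constructor
    · rintro (⟨_, h⟩ | ⟨h, _⟩)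
      · exact h.symm
      · omega
    · intro h
      exact Or.inl ⟨hlt, h.symm⟩
  · constructor
    · rintro (⟨h, _⟩ | ⟨_, h⟩)
      · exact absurd h hlt
      · exact h.symm
    · intro h
      exact Or.inr ⟨by omega, h.symm⟩

theorem unpair_left_dioph {f : (α → ℕ) → ℕ} (df : DiophFn f) :
    DiophFn fun v => (f v).unpair.1 := by
  have h : Dioph {v : Option α → ℕ | ∃ y, Nat.pair (v none) y = f (v ∘ some)} := by
    apply ex_dioph'
    exact eq_dioph (pair_dioph (proj_dioph (some none)) (proj_dioph none))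
      (reindex_diophFn (fun x => some (some x)) df)
  refine Dioph.ext h (fun v => ?_)
  simp only [Set.mem_ofPred_eq]
  constructor
  · rintro ⟨y, hy⟩
    rw [← hy, Nat.unpair_pair]
  · intro h
    exact ⟨(f (v ∘ some)).unpair.2, by rw [← h, Nat.pair_unpair]⟩

theorem unpair_right_dioph {f : (α → ℕ) → ℕ} (df : DiophFn f) :
    DiophFn fun v => (f v).unpair.2 := by
  have h : Dioph {v : Option α → ℕ | ∃ y, Nat.pair y (v none) = f (v ∘ some)} := by
    apply ex_dioph'
    exact eq_dioph (pair_dioph (proj_dioph none) (proj_dioph (some none)))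
      (reindex_diophFn (fun x => some (some x)) df)
  refine Dioph.ext h (fun v => ?_)
  simp only [Set.mem_ofPred_eq]
  constructor
  · rintro ⟨y, hy⟩
    rw [← hy, Nat.unpair_pair]
  · intro h
    exact ⟨(f (v ∘ some)).unpair.1, by rw [← h, Nat.pair_unpair]⟩

theorem beta_dioph {f g : (α → ℕ) → ℕ} (df : DiophFn f) (dg : DiophFn g) :
    DiophFn fun v => Nat.beta (f v) (g v) :=
  mod_dioph (unpair_left_dioph df)
    (add_dioph (mul_dioph (add_dioph dg (const_dioph 1)) (unpair_right_dioph df)) (const_dioph 1))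

end Basic

/-- Every finite sequence is coded by the beta function. -/
theorem exists_beta (σ : ℕ → ℕ) (n : ℕ) : ∃ s, ∀ i ≤ n, Nat.beta s i = σ i := by
  refine ⟨Nat.unbeta ((List.range (n + 1)).map σ), fun i hi => ?_⟩
  have hlen : i < ((List.range (n + 1)).map σ).length := by simp; omega
  have := Nat.beta_unbeta_coe ((List.range (n + 1)).map σ) ⟨i, hlen⟩
  simpa using this

/-- The graph of `f` is Diophantine. -/
def DG (f : ℕ →. ℕ) : Prop := Dioph {v : Vector3 ℕ 2 | v &1 ∈ f (v &0)}

theorem DG.comp {α : Type} {f : ℕ →. ℕ} (hf : DG f) {a b : (α → ℕ) → ℕ} (da : DiophFn a)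
    (db : DiophFn b) : Dioph {v | b v ∈ f (a v)} :=
  dioph_comp2 (S := fun x y => y ∈ f x) da db hf

theorem DG.of_fn {f : ℕ → ℕ} (h : DiophFn fun v : Vector3 ℕ 2 => f (v &0)) : DG (f : ℕ →. ℕ) := by
  refine ext_dioph' (eq_dioph (proj_dioph_of_nat (n := 2) 1) h) (fun v => ?_)
  simp only [PFun.coe_val, Part.mem_some_iff]

/-- Description of primitive recursion through sequences. -/
theorem mem_rec (f g : ℕ →. ℕ) (a n m : ℕ) :
    m ∈ (Nat.rec (f a) (fun y IH => do let i ← IH; g (Nat.pair a (Nat.pair y i))) n : Part ℕ) ↔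
      ∃ σ : ℕ → ℕ, σ 0 ∈ f a ∧ (∀ k < n, σ (k + 1) ∈ g (Nat.pair a (Nat.pair k (σ k)))) ∧
        σ n = m := by
  induction n generalizing m with
  | zero =>
    constructor
    · intro h
      exact ⟨fun _ => m, h, fun k hk => absurd hk (Nat.not_lt_zero k), rfl⟩
    · rintro ⟨σ, h, _, rfl⟩
      exact h
  | succ n ih =>
    simp only [Part.bind_eq_bind, Part.mem_bind_iff]
    constructor
    · rintro ⟨i, hi, hm⟩
      obtain ⟨σ, h0, h1, h2⟩ := (ih i).mp hi
      refine ⟨fun j => if j = n + 1 then m else σ j, ?_, ?_, ?_⟩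
      · simpa using h0
      · intro k hk
        by_cases hkn : k = n
        · subst hkn
          simpa [h2] using hm
        · have hk' : k < n := by omega
          have e2 : k ≠ n + 1 := by omega
          simpa [hkn, e2] using h1 k hk'
      · simp
    · rintro ⟨σ, h0, h1, rfl⟩
      exact ⟨σ n, (ih _).mpr ⟨σ, h0, fun k hk => h1 k (by omega), rfl⟩, h1 n (Nat.lt_succ_self n)⟩

theorem dg_of_partrec {f : ℕ →. ℕ} (hf : Nat.Partrec f) : DG f := by
  induction hf with
  | zero =>
    refine ext_dioph' (eq_dioph (proj_dioph_of_nat (n := 2) 1) (const_dioph 0)) (fun v => ?_)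
    change _ ↔ v &1 ∈ Part.some 0
    rw [Part.mem_some_iff]
    rfl
  | succ => exact DG.of_fn (add_dioph (proj_dioph_of_nat (n := 2) 0) (const_dioph 1))
  | left => exact DG.of_fn (unpair_left_dioph (proj_dioph_of_nat (n := 2) 0))
  | right => exact DG.of_fn (unpair_right_dioph (proj_dioph_of_nat (n := 2) 0))
  | @pair f g _ _ hf hg =>
    have h : Dioph {v : Vector3 ℕ 2 | ∃ x, ∃ y, x ∈ f (v &0) ∧ y ∈ g (v &0) ∧
        Nat.pair x y = v &1} := by
      apply ex_dioph'
      apply ex_dioph'
      exact Dioph.inter (hf.comp (proj_dioph (some (some &0))) (proj_dioph (some none)))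
        (Dioph.inter (hg.comp (proj_dioph (some (some &0))) (proj_dioph none))
          (eq_dioph (pair_dioph (proj_dioph (some none)) (proj_dioph none))
            (proj_dioph (some (some &1)))))
    refine ext_dioph' h (fun v => ?_)
    simp only [Seq.seq, Part.mem_bind_iff]
    constructor
    · rintro ⟨x, y, hx, hy, hxy⟩
      refine ⟨Nat.pair x, ?_, ?_⟩
      · exact Part.mem_map _ hx
      · rw [← hxy]
        exact Part.mem_map _ hy
    · rintro ⟨F, hF, hv⟩
      obtain ⟨x, hx, rfl⟩ := (Part.mem_map_iff _).mp hF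
      obtain ⟨y, hy, hxy⟩ := (Part.mem_map_iff _).mp hv
      exact ⟨x, y, hx, hy, hxy⟩
  | @comp f g _ _ hf hg =>
    have h : Dioph {v : Vector3 ℕ 2 | ∃ x, x ∈ g (v &0) ∧ v &1 ∈ f x} := by
      apply ex_dioph'
      exact Dioph.inter (hg.comp (proj_dioph (some &0)) (proj_dioph none))
        (hf.comp (proj_dioph none) (proj_dioph (some &1)))
    refine ext_dioph' h (fun v => ?_)
    change _ ↔ _ ∈ (g (v &0)).bind f
    rw [Part.mem_bind_iff]
  | @prec f g _ _ hf hg =>
    have h : Dioph {v : Vector3 ℕ 2 | ∃ s, Nat.beta s 0 ∈ f (v &0).unpair.1 ∧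
        (∀ k < (v &0).unpair.2, Nat.beta s (k + 1) ∈
          g (Nat.pair (v &0).unpair.1 (Nat.pair k (Nat.beta s k)))) ∧
        Nat.beta s (v &0).unpair.2 = v &1} := by
      apply ex_dioph'
      refine Dioph.inter (hf.comp (unpair_left_dioph (proj_dioph (some &0)))
        (beta_dioph (proj_dioph none) (const_dioph 0))) (Dioph.inter ?_
        (eq_dioph (beta_dioph (proj_dioph none) (unpair_right_dioph (proj_dioph (some &0))))
          (proj_dioph (some &1))))
      apply bforall (P := fun k v => Nat.beta (v none) (k + 1) ∈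
        g (Nat.pair (v (some &0)).unpair.1 (Nat.pair k (Nat.beta (v none) k))))
        (unpair_right_dioph (proj_dioph (some &0)))
      exact hg.comp (pair_dioph (unpair_left_dioph (proj_dioph (some (some &0))))
        (pair_dioph (proj_dioph none) (beta_dioph (proj_dioph (some none)) (proj_dioph none))))
        (beta_dioph (proj_dioph (some none)) (add_dioph (proj_dioph none) (const_dioph 1)))
    refine ext_dioph' h (fun v => ?_)
    simp only [Nat.unpaired]
    rw [mem_rec]
    constructor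
    · rintro ⟨s, h0, h1, h2⟩
      exact ⟨Nat.beta s, h0, h1, h2⟩
    · rintro ⟨σ, h0, h1, h2⟩
      obtain ⟨s, hs⟩ := exists_beta σ (v &0).unpair.2
      refine ⟨s, ?_, ?_, ?_⟩
      · rw [hs 0 (Nat.zero_le _)]; exact h0
      · intro k hk
        rw [hs k hk.le, hs (k + 1) hk]
        exact h1 k hk
      · rw [hs _ le_rfl]; exact h2
  | @rfind f _ hf =>
    have h : Dioph {v : Vector3 ℕ 2 | 0 ∈ f (Nat.pair (v &0) (v &1)) ∧
        ∀ k < v &1, ∃ y, y ∈ f (Nat.pair (v &0) k) ∧ y ≠ 0} := by
      refine Dioph.inter (hf.comp (pair_dioph (proj_dioph &0) (proj_dioph &1)) (const_dioph 0)) ?_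
      apply bforall (P := fun k (v : Vector3 ℕ 2) => ∃ y, y ∈ f (Nat.pair (v &0) k) ∧ y ≠ 0)
        (proj_dioph &1)
      apply ex_dioph'
      exact Dioph.inter (hf.comp (pair_dioph (proj_dioph (some (some &0))) (proj_dioph (some none)))
        (proj_dioph none)) (ne_dioph (proj_dioph none) (const_dioph 0))
    refine ext_dioph' h (fun v => ?_)
    rw [Nat.mem_rfind]
    constructor
    · rintro ⟨h0, h1⟩
      refine ⟨?_, fun {k} hk => ?_⟩
      · exact (Part.mem_map_iff _).mpr ⟨0, h0, by simp⟩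
      · obtain ⟨y, hy, hy0⟩ := h1 k hk
        exact (Part.mem_map_iff _).mpr ⟨y, hy, by simp [hy0]⟩
    · rintro ⟨h0, h1⟩
      refine ⟨?_, fun k hk => ?_⟩
      · obtain ⟨y, hy, hy0⟩ := (Part.mem_map_iff _).mp h0
        have : y = 0 := by simpa using hy0
        rwa [this] at hy
      · obtain ⟨y, hy, hy0⟩ := (Part.mem_map_iff _).mp (h1 hk)
        exact ⟨y, hy, by simpa using hy0⟩

/-- **MRDP**: recursively enumerable sets of natural numbers are Diophantine. -/
theorem rePred_dioph {S : ℕ → Prop} (hS : REPred S) :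
    Dioph {v : Vector3 ℕ 1 | S (v &0)} := by
  have h1 : Nat.Partrec fun n => (Part.assert (S n) fun _ => Part.some ()).map
      (fun _ => (0 : ℕ)) := by
    have h2 : Partrec fun n => (Part.assert (S n) fun _ => Part.some ()).map
      (fun _ => (0 : ℕ)) := Partrec.map hS (Computable.const 0).to₂
    exact Partrec.nat_iff.mp h2
  have h3 : Dioph {v : Vector3 ℕ 1 | ∃ y, y ∈ (Part.assert (S (v &0)) fun _ => Part.some ()).map
      (fun _ => (0 : ℕ))} := by
    apply ex_dioph'
    exact (dg_of_partrec h1).comp (proj_dioph (some &0)) (proj_dioph none)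
  refine ext_dioph' h3 (fun v => ?_)
  constructor
  · rintro ⟨y, hy⟩
    obtain ⟨_, hx, _⟩ := (Part.mem_map_iff _).mp hy
    exact (Part.mem_assert_iff.mp hx).1
  · intro h
    exact ⟨0, (Part.mem_map_iff _).mpr ⟨(), Part.mem_assert_iff.mpr ⟨h, Part.mem_some _⟩, rfl⟩⟩

/-- A Diophantine set of natural numbers that is not computable. -/
theorem exists_dioph_not_computable :
    ∃ S : ℕ → Prop, Dioph {v : Vector3 ℕ 1 | S (v &0)} ∧ ¬ ComputablePred S := by
  let S : ℕ → Prop := fun n => (Nat.Partrec.Code.eval (Denumerable.ofNat Nat.Partrec.Code n) 0).Dom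
  refine ⟨S, rePred_dioph ?_, ?_⟩
  · exact (Nat.Partrec.Code.eval_part.comp (Computable.ofNat _) (Computable.const 0)).dom_re
  · intro hS
    apply ComputablePred.halting_problem 0
    have h1 : ComputablePred fun c : Nat.Partrec.Code => S (Encodable.encode c) := by
      obtain ⟨d, hd⟩ := hS
      exact ⟨fun c => d (Encodable.encode c), hd.comp Computable.encode⟩
    refine h1.of_eq (fun c => ?_)
    simp only [S, Denumerable.ofNat_encode]

end Pool.Agent.Lib.MRDP
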