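import Pool.Agent.Lib.MRDP.Main

set_option autoImplicit false

/-!
Every Diophantine set of natural numbers is defined by a finite system of equations
`x_i + x_j = x_k`, `x_i x_j = x_k` over the integers, with `x_none = 1`.
-/

namespace Pool.Agent.Lib.MRDP

/-- Atomic equations. -/
inductive Eqn (V : Type) : Type
  | add (i j k : V) : Eqn V
  | mul (i j k : V) : Eqn V

/-- Truth of an atomic equation. -/
def Eqn.holds {V : Type} (x : V → ℤ) : Eqn V → Prop
  | .add i j k => x i + x j = x k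
  | .mul i j k => x i * x j = x k

/-- Renaming of variables. -/
def Eqn.map {V W : Type} (f : V → W) : Eqn V → Eqn W
  | .add i j k => .add (f i) (f j) (f k)
  | .mul i j k => .mul (f i) (f j) (f k)

theorem Eqn.holds_map {V W : Type} (f : V → W) (x : W → ℤ) (e : Eqn V) :
    (e.map f).holds x ↔ e.holds (x ∘ f) := by
  cases e <;> rfl

/-- Definability by a finite system with finitely many auxiliary integer variables. -/
def QD {δ : Type} (P : (δ → ℤ) → Prop) : Prop :=
  ∃ (γ : Type) (_ : Finite γ) (E : List (Eqn (Option (δ ⊕ γ)))), ∀ x : δ → ℤ,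
    P x ↔ ∃ y : γ → ℤ, ∀ e ∈ E, e.holds (Option.elim' 1 (Sum.elim x y))

/-- Value of a variable or of the constant one. -/
def val {δ : Type} (x : δ → ℤ) : Option δ → ℤ := Option.elim' 1 x

theorem QD.of_iff {δ : Type} {P Q : (δ → ℤ) → Prop} (h : QD P) (H : ∀ x, P x ↔ Q x) : QD Q := by
  obtain ⟨γ, hγ, E, hE⟩ := h
  exact ⟨γ, hγ, E, fun x => (H x).symm.trans (hE x)⟩

theorem QD.eqn {δ : Type} (e : Eqn (Option δ)) : QD fun x : δ → ℤ => e.holds (val x) := by
  refine ⟨Empty, inferInstance, [e.map (Option.map Sum.inl)], fun x => ?_⟩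
  simp only [List.mem_singleton, forall_eq, Eqn.holds_map]
  have : ∀ y : Empty → ℤ, (Option.elim' 1 (Sum.elim x y)) ∘ (Option.map Sum.inl) = val x := by
    intro y
    funext i
    cases i <;> rfl
  simp only [this]
  exact ⟨fun h => ⟨Empty.elim, h⟩, fun ⟨_, h⟩ => h⟩

theorem QD.and {δ : Type} {P Q : (δ → ℤ) → Prop} (hP : QD P) (hQ : QD Q) :
    QD fun x => P x ∧ Q x := by
  obtain ⟨γ, hγ, E, hE⟩ := hP
  obtain ⟨γ', hγ', E', hE'⟩ := hQ
  refine ⟨γ ⊕ γ', inferInstance,
    E.map (Eqn.map (Option.map (Sum.map id Sum.inl))) ++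
      E'.map (Eqn.map (Option.map (Sum.map id Sum.inr))), fun x => ?_⟩
  show (P x ∧ Q x) ↔ _
  rw [hE, hE']
  have h1 : ∀ y : γ ⊕ γ' → ℤ, (Option.elim' 1 (Sum.elim x y)) ∘ (Option.map (Sum.map id Sum.inl)) =
      Option.elim' 1 (Sum.elim x (y ∘ Sum.inl)) := by
    intro y
    funext i
    rcases i with _ | (i | i) <;> rfl
  have h2 : ∀ y : γ ⊕ γ' → ℤ, (Option.elim' 1 (Sum.elim x y)) ∘ (Option.map (Sum.map id Sum.inr)) =
      Option.elim' 1 (Sum.elim x (y ∘ Sum.inr)) := by
    intro y
    funext i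
    rcases i with _ | (i | i) <;> rfl
  constructor
  · rintro ⟨⟨y, hy⟩, ⟨y', hy'⟩⟩
    refine ⟨Sum.elim y y', fun e he => ?_⟩
    rw [List.mem_append, List.mem_map, List.mem_map] at he
    rcases he with ⟨e, he, rfl⟩ | ⟨e, he, rfl⟩
    · rw [Eqn.holds_map, h1]; exact hy e he
    · rw [Eqn.holds_map, h2]; exact hy' e he
  · rintro ⟨y, hy⟩
    refine ⟨⟨y ∘ Sum.inl, fun e he => ?_⟩, ⟨y ∘ Sum.inr, fun e he => ?_⟩⟩
    · rw [← h1, ← Eqn.holds_map]
      exact hy _ (List.mem_append_left _ (List.mem_map_of_mem he))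
    · rw [← h2, ← Eqn.holds_map]
      exact hy _ (List.mem_append_right _ (List.mem_map_of_mem he))

theorem QD.reindex {δ δ' : Type} {P : (δ → ℤ) → Prop} (f : δ → δ') (hP : QD P) :
    QD fun x : δ' → ℤ => P (x ∘ f) := by
  obtain ⟨γ, hγ, E, hE⟩ := hP
  refine ⟨γ, hγ, E.map (Eqn.map (Option.map (Sum.map f id))), fun x => ?_⟩
  show P (x ∘ f) ↔ _
  rw [hE]
  have h1 : ∀ y : γ → ℤ, (Option.elim' 1 (Sum.elim x y)) ∘ (Option.map (Sum.map f id)) =
      Option.elim' 1 (Sum.elim (x ∘ f) y) := by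
    intro y
    funext i
    rcases i with _ | (i | i) <;> rfl
  constructor
  · rintro ⟨y, hy⟩
    refine ⟨y, fun e he => ?_⟩
    obtain ⟨e', he', rfl⟩ := List.mem_map.mp he
    rw [Eqn.holds_map, h1]; exact hy e' he'
  · rintro ⟨y, hy⟩
    refine ⟨y, fun e he => ?_⟩
    rw [← h1, ← Eqn.holds_map]
    exact hy _ (List.mem_map_of_mem he)

/-- Existential quantification over a finite block of integer variables. -/
theorem QD.exN {δ ε : Type} [Finite ε] {P : (δ ⊕ ε → ℤ) → Prop} (hP : QD P) :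
    QD fun x : δ → ℤ => ∃ z : ε → ℤ, P (Sum.elim x z) := by
  obtain ⟨γ, hγ, E, hE⟩ := hP
  refine ⟨ε ⊕ γ, inferInstance, E.map (Eqn.map (Option.map (Equiv.sumAssoc δ ε γ))), fun x => ?_⟩
  have h1 : ∀ (z : ε → ℤ) (y : γ → ℤ),
      (Option.elim' 1 (Sum.elim x (Sum.elim z y))) ∘ (Option.map (Equiv.sumAssoc δ ε γ)) =
      Option.elim' 1 (Sum.elim (Sum.elim x z) y) := by
    intro z y
    funext i
    rcases i with _ | ((i | i) | i) <;> rfl
  constructor
  · rintro ⟨z, hz⟩
    obtain ⟨y, hy⟩ := (hE _).mp hz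
    refine ⟨Sum.elim z y, fun e he => ?_⟩
    obtain ⟨e', he', rfl⟩ := List.mem_map.mp he
    rw [Eqn.holds_map, h1]; exact hy e' he'
  · rintro ⟨w, hw⟩
    refine ⟨w ∘ Sum.inl, (hE _).mpr ⟨w ∘ Sum.inr, fun e he => ?_⟩⟩
    have h2 : w = Sum.elim (w ∘ Sum.inl) (w ∘ Sum.inr) := by
      funext i
      rcases i with i | i <;> rfl
    rw [← h1, ← h2, ← Eqn.holds_map]
    exact hw _ (List.mem_map_of_mem he)

theorem QD.ex {δ : Type} {P : (Option δ → ℤ) → Prop} (hP : QD P) :
    QD fun x : δ → ℤ => ∃ z : ℤ, P (Option.elim' z x) := by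
  have h1 : QD fun x : δ ⊕ Unit → ℤ => P (x ∘ (Option.elim' (Sum.inr ()) Sum.inl)) :=
    QD.reindex _ hP
  refine (QD.exN h1).of_iff (fun x => ?_)
  have h2 : ∀ z : Unit → ℤ, (Sum.elim x z) ∘ (Option.elim' (Sum.inr ()) Sum.inl) =
      Option.elim' (z ()) x := by
    intro z
    funext i
    cases i <;> rfl
  simp only [h2]
  exact ⟨fun ⟨z, h⟩ => ⟨z (), h⟩, fun ⟨z, h⟩ => ⟨fun _ => z, h⟩⟩

/-- Definable functions. -/
def QF {δ : Type} (F : (δ → ℤ) → ℤ) : Prop := QD fun x : Option δ → ℤ => x none = F (x ∘ some)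

theorem QF.proj {δ : Type} (i : δ) : QF fun x : δ → ℤ => x i := by
  refine (QD.eqn (δ := Option δ) (.mul (some (some i)) none (some none))).of_iff (fun x => ?_)
  change x (some i) * 1 = x none ↔ x none = x (some i)
  rw [mul_one]
  exact eq_comm

theorem QF.zero {δ : Type} : QF fun _ : δ → ℤ => 0 := by
  refine (QD.eqn (δ := Option δ) (.add (some none) (some none) (some none))).of_iff (fun x => ?_)
  change x none + x none = x none ↔ x none = 0
  omega

theorem QF.one {δ : Type} : QF fun _ : δ → ℤ => 1 := by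
  refine (QD.eqn (δ := Option δ) (.mul none none (some none))).of_iff (fun x => ?_)
  change (1 : ℤ) * 1 = x none ↔ x none = 1
  omega

theorem QF.add {δ : Type} {F G : (δ → ℤ) → ℤ} (hF : QF F) (hG : QF G) :
    QF fun x => F x + G x := by
  have h1 : QD fun x : Option (Option (Option δ)) → ℤ =>
      (x (some none) = F (fun i => x (some (some (some i)))) ∧
        x none = G (fun i => x (some (some (some i))))) ∧
        x (some none) + x none = x (some (some none)) := by
    refine QD.and (QD.and ?_ ?_) ?_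
    · exact QD.reindex (Option.elim' (some none) (fun i => some (some (some i)))) hF
    · exact QD.reindex (Option.elim' none (fun i => some (some (some i)))) hG
    · exact QD.eqn (.add (some (some none)) (some none) (some (some (some none))))
  refine (QD.ex (QD.ex h1)).of_iff (fun x => ?_)
  constructor
  · rintro ⟨a, b, ⟨h1, h2⟩, h3⟩
    change a = F (x ∘ some) at h1
    change b = G (x ∘ some) at h2
    change a + b = x none at h3
    rw [← h3, h1, h2]
  · intro h
    exact ⟨F (x ∘ some), G (x ∘ some), ⟨rfl, rfl⟩, h.symm⟩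

theorem QF.sub {δ : Type} {F G : (δ → ℤ) → ℤ} (hF : QF F) (hG : QF G) :
    QF fun x => F x - G x := by
  have h1 : QD fun x : Option (Option (Option δ)) → ℤ =>
      (x (some none) = F (fun i => x (some (some (some i)))) ∧
        x none = G (fun i => x (some (some (some i))))) ∧
        x (some (some none)) + x none = x (some none) := by
    refine QD.and (QD.and ?_ ?_) ?_
    · exact QD.reindex (Option.elim' (some none) (fun i => some (some (some i)))) hF
    · exact QD.reindex (Option.elim' none (fun i => some (some (some i)))) hG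
    · exact QD.eqn (.add (some (some (some none))) (some none) (some (some none)))
  refine (QD.ex (QD.ex h1)).of_iff (fun x => ?_)
  constructor
  · rintro ⟨a, b, ⟨h1, h2⟩, h3⟩
    change a = F (x ∘ some) at h1
    change b = G (x ∘ some) at h2
    change x none + b = a at h3
    show x none = F (x ∘ some) - G (x ∘ some)
    rw [← h1, ← h2, ← h3]
    ring
  · intro h
    refine ⟨F (x ∘ some), G (x ∘ some), ⟨rfl, rfl⟩, ?_⟩
    change x none + G (x ∘ some) = F (x ∘ some)
    rw [h]
    ring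

theorem QF.mul {δ : Type} {F G : (δ → ℤ) → ℤ} (hF : QF F) (hG : QF G) :
    QF fun x => F x * G x := by
  have h1 : QD fun x : Option (Option (Option δ)) → ℤ =>
      (x (some none) = F (fun i => x (some (some (some i)))) ∧
        x none = G (fun i => x (some (some (some i))))) ∧
        x (some none) * x none = x (some (some none)) := by
    refine QD.and (QD.and ?_ ?_) ?_
    · exact QD.reindex (Option.elim' (some none) (fun i => some (some (some i)))) hF
    · exact QD.reindex (Option.elim' none (fun i => some (some (some i)))) hG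
    · exact QD.eqn (.mul (some (some none)) (some none) (some (some (some none))))
  refine (QD.ex (QD.ex h1)).of_iff (fun x => ?_)
  constructor
  · rintro ⟨a, b, ⟨h1, h2⟩, h3⟩
    change a = F (x ∘ some) at h1
    change b = G (x ∘ some) at h2
    change a * b = x none at h3
    rw [← h3, h1, h2]
  · intro h
    exact ⟨F (x ∘ some), G (x ∘ some), ⟨rfl, rfl⟩, h.symm⟩

theorem QF.nat {δ : Type} (n : ℕ) : QF fun _ : δ → ℤ => (n : ℤ) := by
  induction n with
  | zero => simpa using QF.zero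
  | succ n ih => simpa using ih.add QF.one

theorem QF.int {δ : Type} (n : ℤ) : QF fun _ : δ → ℤ => n := by
  obtain ⟨m, rfl | rfl⟩ := n.eq_nat_or_neg
  · exact QF.nat m
  · simpa using QF.zero.sub (QF.nat m)

theorem poly_qf {δ δ' : Type} (σ : δ → (δ' → ℤ) → ℤ) (hσ : ∀ i, QF (σ i)) (p : Poly δ) :
    ∃ F : (δ' → ℤ) → ℤ, QF F ∧ ∀ (x : δ' → ℤ) (t : δ → ℕ), (∀ i, (t i : ℤ) = σ i x) → F x = p t := by
  induction p using Poly.induction with
  | H1 i => exact ⟨σ i, hσ i, fun x t h => (h i).symm⟩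
  | H2 n => exact ⟨fun _ => n, QF.int n, fun x t _ => rfl⟩
  | H3 f g hf hg =>
    obtain ⟨F, hF, hF'⟩ := hf
    obtain ⟨G, hG, hG'⟩ := hg
    exact ⟨fun x => F x - G x, hF.sub hG, fun x t h => by
      show F x - G x = _
      rw [Poly.sub_apply, hF' x t h, hG' x t h]⟩
  | H4 f g hf hg =>
    obtain ⟨F, hF, hF'⟩ := hf
    obtain ⟨G, hG, hG'⟩ := hg
    exact ⟨fun x => F x * G x, hF.mul hG, fun x t h => by
      show F x * G x = _
      rw [Poly.mul_apply, hF' x t h, hG' x t h]⟩

open Dioph Vector3 Fin2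

/-- A Diophantine set is given by a finite system of atomic equations over the integers. -/
theorem dioph_system {S : ℕ → Prop} (hS : Dioph {v : Vector3 ℕ 1 | S (v &0)}) :
    ∃ (γ : Type) (_ : Finite γ) (E : List (Eqn (Option (Option γ)))), ∀ a : ℕ,
      S a ↔ ∃ y : γ → ℤ, ∀ e ∈ E, e.holds (Option.elim' 1 (Option.elim' (a : ℤ) y)) := by
  classical
  obtain ⟨β, p, hp⟩ := hS
  obtain ⟨s, hs⟩ := poly_support p
  -- new variables
  let δ' := Option ({i : Fin2 1 ⊕ β // i ∈ s} × Fin 4)
  let σ : Fin2 1 ⊕ β → (δ' → ℤ) → ℤ := fun i =>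
    match i with
    | Sum.inl _ => fun x => x none
    | Sum.inr j => fun x => if h : Sum.inr j ∈ s then
        x (some (⟨Sum.inr j, h⟩, 0)) * x (some (⟨Sum.inr j, h⟩, 0)) +
        x (some (⟨Sum.inr j, h⟩, 1)) * x (some (⟨Sum.inr j, h⟩, 1)) +
        x (some (⟨Sum.inr j, h⟩, 2)) * x (some (⟨Sum.inr j, h⟩, 2)) +
        x (some (⟨Sum.inr j, h⟩, 3)) * x (some (⟨Sum.inr j, h⟩, 3)) else 0
  have hσ : ∀ i, QF (σ i) := by
    rintro (i | j)
    · exact QF.proj none
    · by_cases h : Sum.inr j ∈ s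
      · simp only [σ, h, dif_pos]
        exact (((QF.proj _).mul (QF.proj _)).add ((QF.proj _).mul (QF.proj _))).add
          ((QF.proj _).mul (QF.proj _)) |>.add ((QF.proj _).mul (QF.proj _))
      · simp only [σ, h]
        exact QF.zero
  obtain ⟨F, hF, hF'⟩ := poly_qf σ hσ p
  have key : ∀ a : ℕ, S a ↔ ∃ y : {i : Fin2 1 ⊕ β // i ∈ s} × Fin 4 → ℤ,
      F (Option.elim' (a : ℤ) y) = 0 := by
    intro a
    have h1 := hp (fun _ => a)
    change S a ↔ _ at h1
    rw [h1]
    constructor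
    · rintro ⟨t, ht⟩
      have h4 : ∀ n : ℕ, ∃ q : Fin 4 → ℤ, (n : ℤ) = q 0 * q 0 + q 1 * q 1 + q 2 * q 2 + q 3 * q 3 := by
        intro n
        obtain ⟨a, b, c, d, h⟩ := Nat.sum_four_squares n
        refine ⟨![a, b, c, d], ?_⟩
        simp only [Matrix.cons_val]
        rw [← h]
        push_cast
        ring
      choose q hq using h4
      refine ⟨fun z => q (Sum.elim (fun _ => 0) t z.1.1) z.2, ?_⟩
      rw [hF' _ (Sum.elim (fun _ => a) (fun j => if Sum.inr j ∈ s then t j else 0))]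
      · rw [← ht]
        apply hs
        rintro (i | j) hi
        · rfl
        · simp [hi]
      · rintro (i | j)
        · rfl
        · by_cases h : Sum.inr j ∈ s
          · simp only [σ, h, Sum.elim_inr, if_true, dif_pos]
            exact hq (t j)
          · simp [σ, h]
    · rintro ⟨y, hy⟩
      let x : δ' → ℤ := Option.elim' (a : ℤ) y
      let t : Fin2 1 ⊕ β → ℕ := fun i => (σ i x).toNat
      have ht : ∀ i, (t i : ℤ) = σ i x := by
        rintro (i | j)
        · exact Int.toNat_of_nonneg (Int.natCast_nonneg a)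
        · apply Int.toNat_of_nonneg
          by_cases h : Sum.inr j ∈ s
          · simp only [σ, h, dif_pos]
            exact add_nonneg (add_nonneg (add_nonneg (mul_self_nonneg _) (mul_self_nonneg _))
              (mul_self_nonneg _)) (mul_self_nonneg _)
          · simp [σ, h]
      have h2 := hF' x t ht
      refine ⟨fun j => t (Sum.inr j), ?_⟩
      have h3 : Sum.elim (fun _ => a) (fun j => t (Sum.inr j)) = t := by
        funext i
        rcases i with i | j
        · change a = (((a : ℕ) : ℤ)).toNat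
          rw [Int.toNat_natCast]
        · rfl
      rw [h3, ← h2]
      exact hy
  -- final system
  have hQ : QD fun x : Option Unit → ℤ => ∃ y : {i : Fin2 1 ⊕ β // i ∈ s} × Fin 4 → ℤ,
      0 = F (Option.elim' (x none) y) := by
    have h1 : QD fun x : Option (δ') → ℤ => x none = F (x ∘ some) := hF
    have h2 : QD fun x : δ' → ℤ => ∃ z : ℤ, (z = F x) ∧ z + z = z := by
      refine (QD.ex (QD.and h1 (QD.eqn (.add (some none) (some none) (some none))))).of_iff
        (fun x => ?_)
      rfl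
    have h3 : QD fun x : δ' → ℤ => 0 = F x := by
      refine h2.of_iff (fun x => ?_)
      constructor
      · rintro ⟨z, hz, hz'⟩
        have : z = 0 := by omega
        rw [← hz, this]
      · intro h
        exact ⟨0, h, rfl⟩
    have h4 : QD fun x : Option Unit ⊕ ({i : Fin2 1 ⊕ β // i ∈ s} × Fin 4) → ℤ =>
        0 = F (x ∘ (Option.elim' (Sum.inl none) Sum.inr)) := QD.reindex _ h3
    refine (QD.exN h4).of_iff (fun x => ?_)
    have h5 : ∀ z : ({i : Fin2 1 ⊕ β // i ∈ s} × Fin 4) → ℤ,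
        (Sum.elim x z) ∘ (Option.elim' (Sum.inl none) Sum.inr) = Option.elim' (x none) z := by
      intro z
      funext i
      cases i <;> rfl
    simp only [h5]
  have hQ' : QD fun x : Unit → ℤ => ∃ y : {i : Fin2 1 ⊕ β // i ∈ s} × Fin 4 → ℤ,
      0 = F (Option.elim' (x ()) y) := QD.reindex (fun _ => ()) hQ
  obtain ⟨γ, hγ, E, hE⟩ := hQ'
  refine ⟨γ, hγ, E.map (Eqn.map (Option.map (Sum.elim (fun _ => none) some))), fun a => ?_⟩
  rw [key a]
  have h1 : ∀ y : γ → ℤ, (Option.elim' 1 (Option.elim' (a : ℤ) y)) ∘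
      (Option.map (Sum.elim (fun _ => none) some)) =
      Option.elim' 1 (Sum.elim (fun _ : Unit => (a : ℤ)) y) := by
    intro y
    funext i
    rcases i with _ | (i | i) <;> rfl
  have h2 := hE (fun _ => (a : ℤ))
  constructor
  · rintro ⟨y, hy⟩
    obtain ⟨w, hw⟩ := h2.mp ⟨y, hy.symm⟩
    refine ⟨w, fun e he => ?_⟩
    obtain ⟨e', he', rfl⟩ := List.mem_map.mp he
    rw [Eqn.holds_map, h1]
    exact hw e' he'
  · rintro ⟨w, hw⟩
    obtain ⟨y, hy⟩ := h2.mpr ⟨w, fun e he => by
      rw [← h1, ← Eqn.holds_map]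
      exact hw _ (List.mem_map_of_mem he)⟩
    exact ⟨y, hy.symm⟩

end Pool.Agent.Lib.MRDP
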